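import Mathlib

/-!
# The effective weight of a numerical semigroup of genus `g` is at most `⌊(g+1)²/8⌋`

The proof is elementary.  Let `m` be the multiplicity of `S`, let `X` and `Y` be the number of
elements and of gaps of `S` in `[m, 2m)` and let `Z` be the number of gaps above `2m`, so that
`g + 1 = X + 2Y + Z`.  We show `ew(S) ≤ Y (X + Z) = Y (g + 1 - 2Y)`.
-/

namespace Pool.Agent.Results.MP_7689c7_co.EffectiveWeight

open Finset

/-- Summing a function of the rank (counted from below). -/
lemma sum_rank_lt (f : ℕ → ℕ) (T : Finset ℕ) :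
    ∑ x ∈ T, f (#{x' ∈ T | x' < x}) = ∑ i ∈ range (#T), f i := by
  induction T using Finset.induction_on_max with
  | empty => simp
  | insert a s ha ih =>
    have hns : a ∉ s := fun h => lt_irrefl _ (ha a h)
    rw [Finset.sum_insert hns, Finset.card_insert_of_notMem hns, Finset.sum_range_succ,
      add_comm, ← ih]
    congr 1
    · apply Finset.sum_congr rfl
      intro x hx
      have hax := ha x hx
      congr 2
      ext y
      simp only [mem_filter, mem_insert]
      constructor
      · rintro ⟨h | h, h2⟩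
        · omega
        · exact ⟨h, h2⟩
      · rintro ⟨h, h2⟩
        exact ⟨Or.inr h, h2⟩
    · congr 2
      ext y
      simp only [mem_filter, mem_insert]
      constructor
      · rintro ⟨h | h, h2⟩
        · omega
        · exact h
      · intro h
        exact ⟨Or.inr h, ha y h⟩

/-- Summing a function of the rank (counted from above). -/
lemma sum_rank_gt (f : ℕ → ℕ) (T : Finset ℕ) :
    ∑ x ∈ T, f (#{x' ∈ T | x < x'}) = ∑ i ∈ range (#T), f i := by
  induction T using Finset.induction_on_min with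
  | empty => simp
  | insert a s ha ih =>
    have hns : a ∉ s := fun h => lt_irrefl _ (ha a h)
    rw [Finset.sum_insert hns, Finset.card_insert_of_notMem hns, Finset.sum_range_succ,
      add_comm, ← ih]
    congr 1
    · apply Finset.sum_congr rfl
      intro x hx
      have hax := ha x hx
      congr 2
      ext y
      simp only [mem_filter, mem_insert]
      constructor
      · rintro ⟨h | h, h2⟩
        · omega
        · exact ⟨h, h2⟩
      · rintro ⟨h, h2⟩
        exact ⟨Or.inr h, h2⟩
    · congr 2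
      ext y
      simp only [mem_filter, mem_insert]
      constructor
      · rintro ⟨h | h, h2⟩
        · omega
        · exact h
      · intro h
        exact ⟨Or.inr h, ha y h⟩

lemma sum_sub_eq_sum_min (z K : ℕ) :
    ∑ t ∈ range z, (K - (t + 1)) = ∑ k ∈ range K, min z k := by
  induction z with
  | zero => simp
  | succ z ih =>
    rw [Finset.sum_range_succ, ih]
    have h : ∀ K : ℕ, ∑ k ∈ range K, min (z + 1) k = ∑ k ∈ range K, min z k + (K - (z + 1)) := by
      intro K
      induction K with
      | zero => simp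
      | succ K ihK =>
        rw [Finset.sum_range_succ, Finset.sum_range_succ, ihK]
        omega
    rw [h K]

/-- The key pointwise inequality about a subset `A ∋ 0` of `{0, …, m-1}`. -/
lemma window_pointwise (m : ℕ) (A : Finset ℕ) (h0 : 0 ∈ A) (z : ℕ)
    (hz : z ≤ #{d ∈ range m | ¬ ∃ x ∈ A, ∃ x' ∈ A, x + x' = d}) (x : ℕ) (hx : x ∈ A) :
    min z (#{x' ∈ A | x' < x} -
      #{d ∈ range m | d ∉ A ∧ ∃ x ∈ A, ∃ x' ∈ A, x + x' = d}) ≤
      #{y ∈ range m | y ∉ A ∧ y < x} := by
  classical
  set C := {d ∈ range m | ¬ ∃ x ∈ A, ∃ x' ∈ A, x + x' = d} with hC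
  set U := {d ∈ range m | d ∉ A ∧ ∃ x ∈ A, ∃ x' ∈ A, x + x' = d} with hU
  by_cases hc : ∃ c ∈ C, x < c
  · have hne : (C.filter (fun c => x < c)).Nonempty := by
      obtain ⟨c, hc1, hc2⟩ := hc
      exact ⟨c, Finset.mem_filter.mpr ⟨hc1, hc2⟩⟩
    obtain ⟨c, hcm, hcmin⟩ : ∃ c ∈ C.filter (fun c => x < c),
        ∀ y ∈ C.filter (fun c => x < c), c ≤ y :=
      ⟨_, Finset.min'_mem _ hne, fun y hy => Finset.min'_le _ _ hy⟩
    have hcC : c ∈ C := (Finset.mem_filter.mp hcm).1
    have hxc : x < c := (Finset.mem_filter.mp hcm).2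
    have hmin : ∀ y ∈ C, x < y → c ≤ y := fun y hy hxy =>
      hcmin y (Finset.mem_filter.mpr ⟨hy, hxy⟩)
    have hcm' : c < m := Finset.mem_range.mp (Finset.mem_filter.mp hcC).1
    have hcsum : ¬ ∃ x ∈ A, ∃ x' ∈ A, x + x' = c := (Finset.mem_filter.mp hcC).2
    have hcA : c ∉ A := fun h => hcsum ⟨c, h, 0, h0, by simp⟩
    have h1 : #{x' ∈ A | x' ≤ c} ≤ #{y ∈ range m | y ∉ A ∧ y ≤ c} := by
      apply Finset.card_le_card_of_injOn (fun x' => c - x')
      · intro x' hx'
        have hx'2 := Finset.mem_filter.mp (Finset.mem_coe.mp hx')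
        refine Finset.mem_coe.mpr (Finset.mem_filter.mpr ⟨Finset.mem_range.mpr ?_, ?_, ?_⟩)
        · show c - x' < m
          omega
        · intro hmem
          exact hcsum ⟨x', hx'2.1, c - x', hmem, by have := hx'2.2; omega⟩
        · show c - x' ≤ c
          omega
      · intro a ha b hb hab
        have ha2 := (Finset.mem_filter.mp (Finset.mem_coe.mp ha)).2
        have hb2 := (Finset.mem_filter.mp (Finset.mem_coe.mp hb)).2
        have hab' : c - a = c - b := hab
        omega
    have h2 : #{x' ∈ A | x' < x} + 1 ≤ #{x' ∈ A | x' ≤ c} := by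
      rw [← Finset.card_insert_of_notMem (a := x) (s := {x' ∈ A | x' < x}) (by simp)]
      apply Finset.card_le_card
      intro y hy
      rw [Finset.mem_insert, Finset.mem_filter] at hy
      rw [Finset.mem_filter]
      rcases hy with rfl | ⟨hy1, hy2⟩
      · exact ⟨hx, hxc.le⟩
      · exact ⟨hy1, by omega⟩
    have h3 : #{y ∈ range m | y ∉ A ∧ y ≤ c} ≤
        #{y ∈ range m | y ∉ A ∧ y < x} + 1 + #U := by
      calc #{y ∈ range m | y ∉ A ∧ y ≤ c}
          ≤ #(({y ∈ range m | y ∉ A ∧ y < x} ∪ {c}) ∪ U) := by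
            apply Finset.card_le_card
            intro y hy
            rw [Finset.mem_filter] at hy
            obtain ⟨hy1, hy2, hy3⟩ := hy
            rw [Finset.mem_union, Finset.mem_union, Finset.mem_filter, Finset.mem_singleton]
            by_cases hyc : y = c
            · exact Or.inl (Or.inr hyc)
            by_cases hyx : y < x
            · exact Or.inl (Or.inl ⟨hy1, hy2, hyx⟩)
            right
            have hyx2 : y ≠ x := fun h => hy2 (h ▸ hx)
            have hyC : y ∉ C := by
              intro hyC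
              have := hmin y hyC (by omega)
              omega
            rw [hU, Finset.mem_filter]
            refine ⟨hy1, hy2, ?_⟩
            by_contra hcon
            exact hyC (Finset.mem_filter.mpr ⟨hy1, hcon⟩)
        _ ≤ #({y ∈ range m | y ∉ A ∧ y < x} ∪ {c}) + #U := Finset.card_union_le _ _
        _ ≤ #{y ∈ range m | y ∉ A ∧ y < x} + #({c} : Finset ℕ) + #U := by
            gcongr
            exact Finset.card_union_le _ _
        _ = _ := by simp
    omega
  · push Not at hc
    have : #C ≤ #{y ∈ range m | y ∉ A ∧ y < x} := by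
      apply Finset.card_le_card
      intro c hcC
      have hcsum : ¬ ∃ x ∈ A, ∃ x' ∈ A, x + x' = c := (Finset.mem_filter.mp hcC).2
      have hcA : c ∉ A := fun h => hcsum ⟨c, h, 0, h0, by simp⟩
      have hle := hc c hcC
      have hne : c ≠ x := fun h => hcA (h ▸ hx)
      exact Finset.mem_filter.mpr ⟨(Finset.mem_filter.mp hcC).1, hcA, by omega⟩
    exact (min_le_left _ _).trans (hz.trans this)

/-- Summed version. -/
lemma window_sum (m : ℕ) (A : Finset ℕ) (h0 : 0 ∈ A) (z : ℕ)
    (hz : z ≤ #{d ∈ range m | ¬ ∃ x ∈ A, ∃ x' ∈ A, x + x' = d}) :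
    ∑ t ∈ range z, ((#A - #{d ∈ range m | d ∉ A ∧ ∃ x ∈ A, ∃ x' ∈ A, x + x' = d}) - (t + 1)) ≤
      ∑ x ∈ A, #{y ∈ range m | y ∉ A ∧ y < x} := by
  set s := #{d ∈ range m | d ∉ A ∧ ∃ x ∈ A, ∃ x' ∈ A, x + x' = d} with hs
  calc ∑ t ∈ range z, ((#A - s) - (t + 1))
      = ∑ k ∈ range (#A - s), min z k := sum_sub_eq_sum_min z _
    _ ≤ ∑ i ∈ range (#A), min z (i - s) := by
        by_cases hsA : s ≤ #A
        · obtain ⟨K, hK⟩ := Nat.exists_eq_add_of_le hsA
          rw [hK, Finset.sum_range_add]
          have : s + K - s = K := by omega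
          rw [this]
          have h2 : ∑ x ∈ range K, min z (s + x - s) = ∑ k ∈ range K, min z k := by
            apply Finset.sum_congr rfl
            intro k _
            congr 1
            omega
          rw [h2]
          exact Nat.le_add_left _ _
        · have : #A - s = 0 := by omega
          rw [this]
          simp
    _ = ∑ x ∈ A, min z (#{x' ∈ A | x' < x} - s) := (sum_rank_lt (fun i => min z (i - s)) A).symm
    _ ≤ _ := Finset.sum_le_sum (fun x hx => window_pointwise m A h0 z hz x hx)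

/-- The heart of the argument, for a given multiplicity `m`. -/
theorem main_bound (S : AddSubmonoid ℕ) (hS : ((S : Set ℕ)ᶜ).Finite) (m : ℕ) (hm0 : 0 < m)
    (hmS : m ∈ S) (hmin : ∀ s ∈ S, s ≠ 0 → m ≤ s) :
    8 * ({p : ℕ × ℕ | (p.1 ∈ S ∧ p.1 ≠ 0 ∧
        ∀ x ∈ S, ∀ y ∈ S, x ≠ 0 → y ≠ 0 → x + y ≠ p.1) ∧ p.2 ∉ S ∧ p.1 < p.2}.ncard) ≤
      (((S : Set ℕ)ᶜ).ncard + 1) ^ 2 := by
  classical
  -- the finite set of gaps
  obtain ⟨G, hG⟩ : ∃ G : Finset ℕ, ∀ b, b ∈ G ↔ b ∉ S :=
    ⟨hS.toFinset, fun b => by simp⟩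
  have hGcard : ((S : Set ℕ)ᶜ).ncard = #G := by
    have : ((S : Set ℕ)ᶜ) = (G : Set ℕ) := by
      ext b
      simp [hG]
    rw [this, Set.ncard_coe_finset]
  -- minimal generators
  let gen : ℕ → Prop := fun a => a ∈ S ∧ a ≠ 0 ∧ ∀ x ∈ S, ∀ y ∈ S, x ≠ 0 → y ≠ 0 → x + y ≠ a
  have hgenS : ∀ a, gen a → a ∈ S := fun a h => h.1
  have hgenm : ∀ a, gen a → m ≤ a := fun a h => hmin a h.1 h.2.1
  -- multiples of `m`
  have hkm : ∀ k : ℕ, k * m ∈ S := by
    intro k
    have := S.nsmul_mem hmS k
    simpa using this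
  -- if `r ∈ S` and `c ≡ r` with `c ≥ r`, then `c ∈ S`
  have hup : ∀ r c : ℕ, r ∈ S → r ≤ c → r % m = c % m → c ∈ S := by
    intro r c hr hrc hmod
    have hdvd : m ∣ c - r := (Nat.modEq_iff_dvd' hrc).mp hmod
    obtain ⟨k, hk⟩ := hdvd
    have : c = r + k * m := by
      have : c - r = k * m := by rw [hk, mul_comm]
      omega
    rw [this]
    exact S.add_mem hr (hkm k)
  -- two generators in the same class mod `m` are equal
  have hgenmod : ∀ a a' : ℕ, gen a → gen a' → a % m = a' % m → a = a' := by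
    have key : ∀ a a' : ℕ, gen a → gen a' → a % m = a' % m → ¬ a < a' := by
      intro a a' ha ha' hmod hlt
      have hdvd : m ∣ a' - a := (Nat.modEq_iff_dvd' hlt.le).mp hmod
      obtain ⟨k, hk⟩ := hdvd
      have hk' : a' - a = k * m := by rw [hk, mul_comm]
      have hne : k * m ≠ 0 := by omega
      exact ha'.2.2 a ha.1 (k * m) (hkm k) ha.2.1 hne (by omega)
    intro a a' ha ha' hmod
    have h1 := key a a' ha ha' hmod
    have h2 := key a' a ha' ha hmod.symm
    omega
  -- number of generators below `b`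
  let N : ℕ → ℕ := fun b => #{a ∈ range b | gen a}
  have hpairs : {p : ℕ × ℕ | (p.1 ∈ S ∧ p.1 ≠ 0 ∧
      ∀ x ∈ S, ∀ y ∈ S, x ≠ 0 → y ≠ 0 → x + y ≠ p.1) ∧ p.2 ∉ S ∧ p.1 < p.2}.ncard =
      ∑ b ∈ G, N b := by
    have h1 : {p : ℕ × ℕ | (p.1 ∈ S ∧ p.1 ≠ 0 ∧
      ∀ x ∈ S, ∀ y ∈ S, x ≠ 0 → y ≠ 0 → x + y ≠ p.1) ∧ p.2 ∉ S ∧ p.1 < p.2} =
      ((G.biUnion (fun b => ({a ∈ range b | gen a}).image (fun a => (a, b))) :
        Finset (ℕ × ℕ)) : Set (ℕ × ℕ)) := by
      ext ⟨a, b⟩
      simp only [Set.mem_ofPred_eq, Finset.coe_biUnion, Set.mem_iUnion, Finset.coe_image,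
        Set.mem_image, Finset.mem_coe, Finset.mem_filter, Finset.mem_range, Prod.mk.injEq]
      constructor
      · rintro ⟨h1, h2, h3⟩
        exact ⟨b, (hG b).mpr h2, a, ⟨h3, h1⟩, rfl, rfl⟩
      · rintro ⟨b', hb', a', ⟨h3, h1⟩, rfl, rfl⟩
        exact ⟨h1, (hG _).mp hb', h3⟩
    rw [h1, Set.ncard_coe_finset, Finset.card_biUnion]
    · apply Finset.sum_congr rfl
      intro b _
      exact Finset.card_image_of_injective _ (fun a a' h => (Prod.mk.inj h).1)
    · intro b _ b' _ hbb'
      rw [Function.onFun, Finset.disjoint_left]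
      intro p hp hp'
      rw [Finset.mem_image] at hp hp'
      obtain ⟨a, _, rfl⟩ := hp
      obtain ⟨a', _, h⟩ := hp'
      exact hbb' (Prod.mk.inj h).2.symm
  -- notation
  let A : Finset ℕ := {x ∈ range m | m + x ∈ S}
  have h0A : 0 ∈ A := by simp [A, hm0, hmS]
  have hAmem : ∀ x, x ∈ A ↔ x < m ∧ m + x ∈ S := by
    intro x
    simp [A]
  let B : Finset ℕ := {y ∈ range m | y ∉ A}
  have hBmem : ∀ y, y ∈ B ↔ y < m ∧ m + y ∉ S := by
    intro y
    simp only [B, Finset.mem_filter, Finset.mem_range, hAmem]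
    tauto
  have hABcard : #A + #B = m := by
    have := Finset.card_filter_add_card_filter_not (s := range m) (fun x => x ∈ A)
    rw [Finset.card_range] at this
    have h2 : {x ∈ range m | x ∈ A} = A := by
      ext x
      simp only [Finset.mem_filter, Finset.mem_range, hAmem]
      tauto
    rw [h2] at this
    exact this
  let U : Finset ℕ := {d ∈ range m | d ∉ A ∧ ∃ x ∈ A, ∃ x' ∈ A, x + x' = d}
  have hUmem : ∀ d, d ∈ U ↔ d < m ∧ d ∉ A ∧ ∃ x ∈ A, ∃ x' ∈ A, x + x' = d := by
    intro d
    simp [U]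
  -- the three kinds of gaps
  let G0 : Finset ℕ := {b ∈ G | b < m}
  let G1 : Finset ℕ := {b ∈ G | m ≤ b ∧ b < 2 * m}
  let G2 : Finset ℕ := {b ∈ G | 2 * m ≤ b}
  let T : Finset ℕ := {b ∈ G2 | b + m ∈ S}
  have hG0card : #G0 + 1 = m := by
    have : G0 = (range m).erase 0 := by
      ext b
      simp only [G0, Finset.mem_filter, hG, Finset.mem_erase, Finset.mem_range]
      constructor
      · rintro ⟨h1, h2⟩
        refine ⟨?_, h2⟩
        rintro rfl
        exact h1 S.zero_mem
      · rintro ⟨h1, h2⟩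
        refine ⟨fun hb => ?_, h2⟩
        have := hmin b hb h1
        omega
    rw [this, Finset.card_erase_of_mem (by simpa using hm0), Finset.card_range]
    omega
  have hG1image : G1 = B.image (fun y => m + y) := by
    ext b
    simp only [G1, Finset.mem_filter, hG, Finset.mem_image, hBmem]
    constructor
    · rintro ⟨h1, h2, h3⟩
      refine ⟨b - m, ⟨by omega, ?_⟩, by omega⟩
      rwa [show m + (b - m) = b by omega]
    · rintro ⟨y, ⟨h1, h2⟩, rfl⟩
      exact ⟨h2, by omega, by omega⟩
  have hG1card : #G1 = #B := by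
    rw [hG1image]
    exact Finset.card_image_of_injective _ (fun a a' h => by
      have h' : m + a = m + a' := h
      omega)
  have hsplit : ∀ f : ℕ → ℕ, ∑ b ∈ G, f b = ∑ b ∈ G0, f b + ∑ b ∈ G1, f b + ∑ b ∈ G2, f b := by
    intro f
    rw [← Finset.sum_filter_add_sum_filter_not G (fun b => b < m) f]
    have h1 : ∑ x ∈ G with ¬ x < m, f x = ∑ b ∈ G1, f b + ∑ b ∈ G2, f b := by
      rw [← Finset.sum_filter_add_sum_filter_not (G.filter (fun b => ¬ b < m))
        (fun b => b < 2 * m) f]
      congr 1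
      · apply Finset.sum_congr _ (fun _ _ => rfl)
        ext b
        simp only [G1, Finset.mem_filter]
        constructor
        · rintro ⟨⟨h1, h2⟩, h3⟩
          exact ⟨h1, by omega, h3⟩
        · rintro ⟨h1, h2, h3⟩
          exact ⟨⟨h1, by omega⟩, h3⟩
      · apply Finset.sum_congr _ (fun _ _ => rfl)
        ext b
        simp only [G2, Finset.mem_filter]
        constructor
        · rintro ⟨⟨h1, h2⟩, h3⟩
          exact ⟨h1, by omega⟩
        · rintro ⟨h1, h2⟩
          exact ⟨⟨h1, by omega⟩, by omega⟩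
    rw [h1, add_assoc]
  have hGcardsplit : #G = #G0 + #G1 + #G2 := by
    have := hsplit (fun _ => 1)
    simpa using this
  -- gaps below `m` contribute nothing
  have hN0 : ∑ b ∈ G0, N b = 0 := by
    apply Finset.sum_eq_zero
    intro b hb
    have hbm : b < m := (Finset.mem_filter.mp hb).2
    show #{a ∈ range b | gen a} = 0
    rw [Finset.card_eq_zero, Finset.filter_eq_empty_iff]
    intro a ha hgen
    have := hgenm a hgen
    have := Finset.mem_range.mp ha
    omega
  -- gaps in the window `[m, 2m)`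
  have hN1 : ∑ b ∈ G1, N b ≤ ∑ y ∈ B, #{x ∈ A | x < y} := by
    rw [hG1image, Finset.sum_image (fun a _ a' _ h => by
      have h' : m + a = m + a' := h
      omega)]
    apply Finset.sum_le_sum
    intro y hy
    have hym := ((hBmem y).mp hy).1
    show #{a ∈ range (m + y) | gen a} ≤ #{x ∈ A | x < y}
    apply Finset.card_le_card_of_injOn (fun a => a - m)
    · intro a ha
      have ha' := Finset.mem_filter.mp (Finset.mem_coe.mp ha)
      have h1 := Finset.mem_range.mp ha'.1
      have h2 := hgenm a ha'.2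
      refine Finset.mem_coe.mpr (Finset.mem_filter.mpr ⟨(hAmem _).mpr ⟨?_, ?_⟩, ?_⟩)
      · show a - m < m
        omega
      · show m + (a - m) ∈ S
        rw [show m + (a - m) = a by omega]
        exact hgenS a ha'.2
      · show a - m < y
        omega
    · intro a ha a' ha' h
      have h1 := hgenm a (Finset.mem_filter.mp (Finset.mem_coe.mp ha)).2
      have h2 := hgenm a' (Finset.mem_filter.mp (Finset.mem_coe.mp ha')).2
      have h' : a - m = a' - m := h
      omega
  -- double counting in `A × B`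
  have hAB : ∑ y ∈ B, #{x ∈ A | x < y} + ∑ x ∈ A, #{y ∈ range m | y ∉ A ∧ y < x} = #A * #B := by
    have h1 : ∑ x ∈ A, #{y ∈ range m | y ∉ A ∧ y < x} = ∑ y ∈ B, #{x ∈ A | y < x} := by
      have h2 : ∀ x ∈ A, #{y ∈ range m | y ∉ A ∧ y < x} = #{y ∈ B | y < x} := by
        intro x _
        congr 1
        ext y
        simp only [B, Finset.mem_filter]
        tauto
      rw [Finset.sum_congr rfl h2]
      exact Finset.sum_card_bipartiteAbove_eq_sum_card_bipartiteBelow (fun x y => y < x)
    rw [h1, ← Finset.sum_add_distrib]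
    have h3 : ∀ y ∈ B, #{x ∈ A | x < y} + #{x ∈ A | y < x} = #A := by
      intro y hy
      have h4 : {x ∈ A | y < x} = {x ∈ A | ¬ x < y} := by
        ext x
        simp only [Finset.mem_filter]
        constructor
        · rintro ⟨h5, h6⟩
          exact ⟨h5, by omega⟩
        · rintro ⟨h5, h6⟩
          refine ⟨h5, ?_⟩
          have : x ≠ y := by
            rintro rfl
            exact ((hBmem x).mp hy).2 ((hAmem x).mp h5).2
          omega
      rw [h4]
      exact Finset.card_filter_add_card_filter_not (fun x => x < y)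
    rw [Finset.sum_congr rfl h3, Finset.sum_const, smul_eq_mul, mul_comm]
  -- gaps `b > 2m` with `b + m` a gap
  have hNnontop : ∀ b ∈ G2, b ∉ T → N b ≤ #B := by
    intro b hb hbT
    have hb2 : 2 * m ≤ b := (Finset.mem_filter.mp hb).2
    have hbm : b + m ∉ S := fun h => hbT (Finset.mem_filter.mpr ⟨hb, h⟩)
    show #{a ∈ range b | gen a} ≤ #B
    apply Finset.card_le_card_of_injOn (fun a => (b + m - a) % m)
    · intro a ha
      have ha' := Finset.mem_filter.mp (Finset.mem_coe.mp ha)
      have h1 := Finset.mem_range.mp ha'.1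
      refine Finset.mem_coe.mpr ((hBmem _).mpr ⟨Nat.mod_lt _ hm0, ?_⟩)
      intro hmem
      have h2 : b + m - a ∈ S := by
        apply hup (m + (b + m - a) % m) (b + m - a) hmem
        · have h3 := Nat.mod_add_div (b + m - a) m
          have h4 : 1 ≤ (b + m - a) / m := by
            rw [Nat.one_le_div_iff hm0]
            omega
          have h5 : m ≤ m * ((b + m - a) / m) := Nat.le_mul_of_pos_right m h4
          omega
        · simp
      have h3 := S.add_mem (hgenS a ha'.2) h2
      rw [show a + (b + m - a) = b + m by omega] at h3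
      exact hbm h3
    · intro a ha a' ha' h
      have ha1 := Finset.mem_filter.mp (Finset.mem_coe.mp ha)
      have ha2 := Finset.mem_filter.mp (Finset.mem_coe.mp ha')
      have hr1 := Finset.mem_range.mp ha1.1
      have hr2 := Finset.mem_range.mp ha2.1
      apply hgenmod a a' ha1.2 ha2.2
      have h' : (b + m - a) % m = (b + m - a') % m := h
      have e1 : a + (b + m - a) = a' + (b + m - a') := by omega
      have e2 : (b + m - a) ≡ (b + m - a') [MOD m] := h'
      have e3 : a + (b + m - a) ≡ a' + (b + m - a') [MOD m] := by rw [e1]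
      exact Nat.ModEq.add_right_cancel e2 e3
  -- top gaps
  have hTgap : ∀ b ∈ T, b ∉ S := fun b hb =>
    (hG b).mp (Finset.mem_filter.mp (Finset.mem_filter.mp hb).1).1
  have hT2m : ∀ b ∈ T, 2 * m ≤ b := fun b hb =>
    (Finset.mem_filter.mp (Finset.mem_filter.mp hb).1).2
  have hTm : ∀ b ∈ T, b + m ∈ S := fun b hb => (Finset.mem_filter.mp hb).2
  -- elements of `S` congruent to a top gap `b` are larger than `b`
  have hTabove : ∀ b ∈ T, ∀ s ∈ S, s % m = b % m → b < s := by
    intro b hb s hs hmod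
    by_contra hcon
    exact hTgap b hb (hup s b hs (by omega) hmod)
  have hTinj : ∀ b ∈ T, ∀ b' ∈ T, b % m = b' % m → b = b' := by
    have key : ∀ b ∈ T, ∀ b' ∈ T, b % m = b' % m → ¬ b < b' := by
      intro b hb b' hb' hmod hlt
      have hdvd : m ∣ b' - b := (Nat.modEq_iff_dvd' hlt.le).mp hmod
      have hle : m ≤ b' - b := Nat.le_of_dvd (by omega) hdvd
      apply hTgap b' hb'
      apply hup (b + m) b' (hTm b hb) (by omega)
      rw [Nat.add_mod_right]
      exact hmod
    intro b hb b' hb' hmod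
    have h1 := key b hb b' hb' hmod
    have h2 := key b' hb' b hb hmod.symm
    omega
  -- a sum of two elements of `A` is never the class of a top gap
  have hTsum : ∀ b ∈ T, ¬ ∃ x ∈ A, ∃ x' ∈ A, x + x' = b % m := by
    rintro b hb ⟨x, hx, x', hx', hxx⟩
    have h1 : (m + x) + (m + x') ∈ S := S.add_mem ((hAmem x).mp hx).2 ((hAmem x').mp hx').2
    have h2 : (m + x) + (m + x') = 2 * m + b % m := by omega
    rw [h2] at h1
    apply hTgap b hb
    apply hup _ b h1
    · have h3 := Nat.mod_add_div b m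
      have h4 : 2 ≤ b / m := by
        rw [Nat.le_div_iff_mul_le hm0]
        exact hT2m b hb
      have h5 : m * 2 ≤ m * (b / m) := Nat.mul_le_mul_left m h4
      omega
    · rw [show 2 * m + b % m = b % m + m * 2 by ring, Nat.add_mul_mod_self_left, Nat.mod_mod]
  have hNtop : ∀ b ∈ T, N b + #U + (#{b' ∈ T | b < b'} + 1) ≤ m := by
    intro b hb
    have hV : #(({a ∈ range b | gen a}).image (fun a => a % m)) = N b := by
      apply Finset.card_image_of_injOn
      intro a ha a' ha' h
      exact hgenmod a a' (Finset.mem_filter.mp (Finset.mem_coe.mp ha)).2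
        (Finset.mem_filter.mp (Finset.mem_coe.mp ha')).2 h
    have hW : #(({b' ∈ T | b ≤ b'}).image (fun b' => b' % m)) = #{b' ∈ T | b < b'} + 1 := by
      rw [Finset.card_image_of_injOn]
      · rw [← Finset.card_insert_of_notMem (a := b) (s := {b' ∈ T | b < b'}) (by simp)]
        congr 1
        ext b'
        simp only [Finset.mem_filter, Finset.mem_insert]
        constructor
        · rintro ⟨h1, h2⟩
          by_cases h3 : b' = b
          · exact Or.inl h3
          · exact Or.inr ⟨h1, by omega⟩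
        · rintro (rfl | ⟨h1, h2⟩)
          · exact ⟨hb, le_refl _⟩
          · exact ⟨h1, h2.le⟩
      · intro a ha a' ha' h
        exact hTinj a (Finset.mem_filter.mp (Finset.mem_coe.mp ha)).1 a'
          (Finset.mem_filter.mp (Finset.mem_coe.mp ha')).1 h
    have hUS : ∀ d ∈ U, 2 * m + d ∈ S := by
      intro d hd
      obtain ⟨_, _, x, hx, x', hx', hxx⟩ := (hUmem d).mp hd
      have h1 : (m + x) + (m + x') ∈ S := S.add_mem ((hAmem x).mp hx).2 ((hAmem x').mp hx').2
      rwa [show (m + x) + (m + x') = 2 * m + d by omega] at h1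
    have hUgen : ∀ d ∈ U, ∀ a, gen a → a % m ≠ d := by
      intro d hd a ha hmod
      obtain ⟨hdm, hdA, x, hx, x', hx', hxx⟩ := (hUmem d).mp hd
      have hne : m + d ∉ S := fun h => hdA ((hAmem d).mpr ⟨hdm, h⟩)
      have h3 := Nat.mod_add_div a m
      rw [hmod] at h3
      have ham := hgenm a ha
      -- `a = d + m * q`
      have hq : 3 ≤ a / m := by
        by_contra hcon
        have hq1 : 1 ≤ a / m := by
          rw [Nat.one_le_div_iff hm0]
          exact ham
        have hcases : a / m = 1 ∨ a / m = 2 := by omega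
        rcases hcases with h4 | h4
        · rw [h4] at h3
          apply hne
          rw [show m + d = a by omega]
          exact hgenS a ha
        · rw [h4] at h3
          exact ha.2.2 (m + x) ((hAmem x).mp hx).2 (m + x') ((hAmem x').mp hx').2
            (by omega) (by omega) (by omega)
      obtain ⟨q, hq'⟩ := Nat.exists_eq_add_of_le hq
      rw [hq'] at h3
      have h5 : a = (2 * m + d) + (q + 1) * m := by
        rw [← h3]
        ring
      refine ha.2.2 (2 * m + d) (hUS d hd) ((q + 1) * m) (hkm _) (by omega) ?_ h5.symm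
      positivity
    have hdisj1 : Disjoint (({a ∈ range b | gen a}).image (fun a => a % m)) U := by
      rw [Finset.disjoint_left]
      intro d hd hdU
      obtain ⟨a, ha, hmod⟩ := Finset.mem_image.mp hd
      exact hUgen d hdU a (Finset.mem_filter.mp ha).2 hmod
    have hdisj2 : Disjoint (({a ∈ range b | gen a}).image (fun a => a % m) ∪ U)
        (({b' ∈ T | b ≤ b'}).image (fun b' => b' % m)) := by
      rw [Finset.disjoint_left]
      intro d hd hdT
      obtain ⟨b', hb', hmod'⟩ := Finset.mem_image.mp hdT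
      obtain ⟨hb'T, hbb'⟩ := Finset.mem_filter.mp hb'
      rcases Finset.mem_union.mp hd with hd | hd
      · obtain ⟨a, ha, hmod⟩ := Finset.mem_image.mp hd
        obtain ⟨har, hag⟩ := Finset.mem_filter.mp ha
        have h1 := hTabove b' hb'T a (hgenS a hag) (by
          have h1 : a % m = d := hmod
          have h2 : b' % m = d := hmod'
          rw [h1, h2])
        have h2 := Finset.mem_range.mp har
        omega
      · obtain ⟨hdm, hdA, hsum⟩ := (hUmem d).mp hd
        have h2 : b' % m = d := hmod'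
        apply hTsum b' hb'T
        rw [h2]
        exact hsum
    have hsub : (({a ∈ range b | gen a}).image (fun a => a % m) ∪ U) ∪
        (({b' ∈ T | b ≤ b'}).image (fun b' => b' % m)) ⊆ range m := by
      intro d hd
      rw [Finset.mem_range]
      rcases Finset.mem_union.mp hd with hd | hd
      · rcases Finset.mem_union.mp hd with hd | hd
        · obtain ⟨a, _, hmod⟩ := Finset.mem_image.mp hd
          have h1 : a % m = d := hmod
          rw [← h1]
          exact Nat.mod_lt _ hm0
        · exact ((hUmem d).mp hd).1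
      · obtain ⟨a, _, hmod⟩ := Finset.mem_image.mp hd
        have h1 : a % m = d := hmod
        rw [← h1]
        exact Nat.mod_lt _ hm0
    have hcard := Finset.card_le_card hsub
    rw [Finset.card_union_of_disjoint hdisj2, Finset.card_union_of_disjoint hdisj1, hV, hW,
      Finset.card_range] at hcard
    exact hcard
  -- the number of top gaps
  have hTcard : #T ≤ #{d ∈ range m | ¬ ∃ x ∈ A, ∃ x' ∈ A, x + x' = d} := by
    apply Finset.card_le_card_of_injOn (fun b => b % m)
    · intro b hb
      exact Finset.mem_coe.mpr (Finset.mem_filter.mpr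
        ⟨Finset.mem_range.mpr (Nat.mod_lt _ hm0), hTsum b (Finset.mem_coe.mp hb)⟩)
    · intro b hb b' hb' h
      exact hTinj b (Finset.mem_coe.mp hb) b' (Finset.mem_coe.mp hb') h
  have hwin := window_sum m A h0A (#T) hTcard
  -- gaps above `2m`
  have hN2 : ∑ b ∈ G2, N b ≤ #B * #G2 + ∑ t ∈ range (#T), ((#A - #U) - (t + 1)) := by
    have hpt : ∀ b ∈ G2, N b ≤ #B + (if b ∈ T then (#A - #U) - (#{b' ∈ T | b < b'} + 1) else 0) := by
      intro b hb
      by_cases hbT : b ∈ T
      · rw [if_pos hbT]
        have := hNtop b hbT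
        omega
      · rw [if_neg hbT]
        have := hNnontop b hb hbT
        omega
    calc ∑ b ∈ G2, N b
        ≤ ∑ b ∈ G2, (#B + (if b ∈ T then (#A - #U) - (#{b' ∈ T | b < b'} + 1) else 0)) :=
          Finset.sum_le_sum hpt
      _ = #B * #G2 + ∑ b ∈ G2, (if b ∈ T then (#A - #U) - (#{b' ∈ T | b < b'} + 1) else 0) := by
          rw [Finset.sum_add_distrib, Finset.sum_const, smul_eq_mul, mul_comm]
      _ = #B * #G2 + ∑ b ∈ T, ((#A - #U) - (#{b' ∈ T | b < b'} + 1)) := by
          congr 1
          rw [← Finset.sum_filter]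
          apply Finset.sum_congr _ (fun _ _ => rfl)
          ext b
          simp only [T, Finset.mem_filter]
          tauto
      _ = #B * #G2 + ∑ t ∈ range (#T), ((#A - #U) - (t + 1)) := by
          congr 1
          exact sum_rank_gt (fun i => (#A - #U) - (i + 1)) T
  -- conclusion
  rw [hpairs, hGcard, hsplit N, hN0]
  have hfin : ∑ b ∈ G1, N b + ∑ b ∈ G2, N b ≤ #B * (#A + #G2) := by
    have e : #B * (#A + #G2) = #A * #B + #B * #G2 := by ring
    rw [e, ← hAB]
    have hwin' : ∑ t ∈ range (#T), ((#A - #U) - (t + 1)) ≤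
        ∑ x ∈ A, #{y ∈ range m | y ∉ A ∧ y < x} := hwin
    omega
  have hn : #G + 1 = #A + 2 * #B + #G2 := by omega
  rw [hn, zero_add]
  calc 8 * (∑ b ∈ G1, N b + ∑ b ∈ G2, N b) ≤ 8 * (#B * (#A + #G2)) :=
        Nat.mul_le_mul_left 8 hfin
    _ ≤ (#A + 2 * #B + #G2) ^ 2 := by
        zify
        nlinarith [sq_nonneg ((#A : ℤ) + #G2 - 2 * #B)]

/-- **The effective weight conjecture.**  For every numerical semigroup `S` of genus `g`, the
number of pairs (minimal generator `a`, gap `b`) with `a < b` is at most `⌊(g+1)²/8⌋`. -/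
theorem result (S : AddSubmonoid ℕ) (hS : ((S : Set ℕ)ᶜ).Finite) :
    {p : ℕ × ℕ | (p.1 ∈ S ∧ p.1 ≠ 0 ∧
        ∀ x ∈ S, ∀ y ∈ S, x ≠ 0 → y ≠ 0 → x + y ≠ p.1) ∧ p.2 ∉ S ∧ p.1 < p.2}.ncard ≤
      (((S : Set ℕ)ᶜ).ncard + 1) ^ 2 / 8 := by
  classical
  -- the multiplicity
  have hex : ∃ s, s ∈ S ∧ 0 < s := by
    by_contra hcon
    push Not at hcon
    have hsub : Set.Ioi (0 : ℕ) ⊆ (S : Set ℕ)ᶜ := by
      intro b hb hbS
      have := hcon b hbS
      have : 0 < b := hb
      omega
    exact (Set.Ioi_infinite 0) (hS.subset hsub)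
  have hm := Nat.find_spec hex
  have hmin : ∀ s ∈ S, s ≠ 0 → Nat.find hex ≤ s := fun s hs h0 =>
    Nat.find_min' hex ⟨hs, Nat.pos_of_ne_zero h0⟩
  have := main_bound S hS (Nat.find hex) hm.2 hm.1 hmin
  rw [Nat.le_div_iff_mul_le (by norm_num)]
  rw [mul_comm]
  exact this

end Pool.Agent.Results.MP_7689c7_co.EffectiveWeight
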